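import Pool.Agent.Helper47.RFn.GoalsA

/-!
# Packet RFn-ALG0: the curvature tensor kills the radial direction
-/

namespace Pool.Agent.Helper47.RFn

open Finset

namespace AlgAux

variable {n : ℕ} {T : ℝ} (F : FB n T)

theorem dl_l (f : Ix n → F.B) (e : Ix n) : ∑ d, F.dl d e * f d = f e := by
  simp [FB.dl]

theorem dl_l' (f : Ix n → F.B) (e : Ix n) : ∑ d, F.dl e d * f d = f e := by
  simp [FB.dl]

theorem dl_r (f : Ix n → F.B) (e : Ix n) : ∑ d, f d * F.dl d e = f e := by
  simp [FB.dl]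

theorem dl_r' (f : Ix n → F.B) (e : Ix n) : ∑ d, f d * F.dl e d = f e := by
  simp [FB.dl]

/-- contraction of an antisymmetric array with `δ_de x_c - δ_ce x_d` -/
theorem contr (w : Ix n → Ix n → F.B) (hw : ∀ c d, w c d = - w d c) (x : Ix n → F.B) (e : Ix n) :
    ∑ c, ∑ d, w c d * (F.dl d e * x c - F.dl c e * x d) = (2 : ℝ) • ∑ c, w c e * x c := by
  have h1 : ∀ c, ∑ d, w c d * (F.dl d e * x c - F.dl c e * x d) =
      w c e * x c - F.dl c e * ∑ d, w c d * x d := by
    intro c
    have h2 : ∀ d, w c d * (F.dl d e * x c - F.dl c e * x d) =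
        F.dl d e * (w c d * x c) - F.dl c e * (w c d * x d) := by
      intro d
      ring
    rw [sum_congr rfl fun d _ => h2 d, sum_sub_distrib, dl_l F (fun d => w c d * x c) e, mul_sum]
  rw [sum_congr rfl fun c _ => h1 c, sum_sub_distrib, dl_l F (fun c => ∑ d, w c d * x d) e]
  have h3 : ∑ d, w e d * x d = - ∑ c, w c e * x c := by
    rw [← sum_neg_distrib]
    refine sum_congr rfl fun d _ => ?_
    rw [hw e d]
    ring
  rw [h3, two_smul]
  ring

theorem half_two (x : F.B) : (1 / 2 : ℝ) • ((2 : ℝ) • x) = x := by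
  rw [smul_smul]
  norm_num

theorem half_two' (x : F.B) : (-(1 / 2) : ℝ) • ((2 : ℝ) • x) = -x := by
  rw [smul_smul]
  norm_num

end AlgAux

open AlgAux in
theorem goal_ALG0 : Goal_ALG0 := by
  intro n T F hF a b e
  have h := hF.HH a b (F.nu e)
  rw [hF.Hnu, hF.Hnu, map_zero, map_zero, sub_zero] at h
  have h1 : ∀ c d, F.R a b c d * F.V c d (F.nu e) =
      F.R a b c d * (F.dl d e * F.nu c - F.dl c e * F.nu d) := by
    intro c d
    rw [hF.Vnu]
  rw [sum_congr rfl fun c _ => sum_congr rfl fun d _ => h1 c d,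
    contr F (fun c d => F.R a b c d) (fun c d => hF.R34 a b c d) F.nu e, half_two' F] at h
  have h2 : ∑ d, F.R a b e d * F.nu d = -∑ c, F.R a b c e * F.nu c := by
    rw [← sum_neg_distrib]
    refine sum_congr rfl fun d _ => ?_
    rw [hF.R34 a b e d]
    ring
  rw [h2]
  exact h.symm

end Pool.Agent.Helper47.RFn
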