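import Pool.Agent.Helper61.RFn.ALG0

/-!
# Packet RFn-ALG2: Jacobi identity `D,H,H`
-/

namespace Pool.Agent.Helper47.RFn

open Finset

namespace Alg2

variable {n : ℕ} {T : ℝ} (F : FB n T)

/-- one half -/
noncomputable def hf : F.B := algebraMap ℝ F.B (1 / 2)

theorem hf_smul (x : F.B) : (1 / 2 : ℝ) • x = hf F * x := Algebra.smul_def _ _

theorem hf_smul' (x : F.B) : (-(1 / 2) : ℝ) • x = -(hf F * x) := by
  rw [neg_smul, hf_smul]

theorem hf_add : hf F + hf F = 1 := by
  unfold hf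
  rw [← map_add]
  norm_num

theorem hf_D (X : Derivation ℝ F.B F.B) (x : F.B) : X (hf F * x) = hf F * X x := by
  rw [← hf_smul, Derivation.map_smul, hf_smul]

theorem lz (X : Derivation ℝ F.B F.B) (x y : F.B) : X (x * y) = X x * y + x * X y := by
  rw [Derivation.leibniz, smul_eq_mul, smul_eq_mul]
  ring

/-- `∑ w_cd V_cd f` -/
def vo (w : Ix n → Ix n → F.B) (f : F.B) : F.B := ∑ c, ∑ d, w c d * F.V c d f

theorem vo_add (w w' : Ix n → Ix n → F.B) (f : F.B) :
    vo F (fun c d => w c d + w' c d) f = vo F w f + vo F w' f := by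
  unfold vo
  rw [← sum_add_distrib]
  refine sum_congr rfl fun c _ => ?_
  rw [← sum_add_distrib]
  refine sum_congr rfl fun d _ => ?_
  ring

theorem vo_sub (w w' : Ix n → Ix n → F.B) (f : F.B) :
    vo F (fun c d => w c d - w' c d) f = vo F w f - vo F w' f := by
  unfold vo
  rw [← sum_sub_distrib]
  refine sum_congr rfl fun c _ => ?_
  rw [← sum_sub_distrib]
  refine sum_congr rfl fun d _ => ?_
  ring

theorem vo_mul (x : F.B) (w : Ix n → Ix n → F.B) (f : F.B) :
    vo F (fun c d => x * w c d) f = x * vo F w f := by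
  unfold vo
  rw [mul_sum]
  refine sum_congr rfl fun c _ => ?_
  rw [mul_sum]
  refine sum_congr rfl fun d _ => ?_
  ring

theorem vo_sum (w : Ix n → Ix n → Ix n → F.B) (x : Ix n → F.B) (f : F.B) :
    vo F (fun c d => ∑ e, x e * w e c d) f = ∑ e, x e * vo F (w e) f := by
  unfold vo
  have h1 : ∀ c d, (∑ e, x e * w e c d) * F.V c d f = ∑ e, x e * (w e c d * F.V c d f) := by
    intro c d
    rw [sum_mul]
    exact sum_congr rfl fun e _ => by ring
  rw [sum_congr rfl fun c _ => sum_congr rfl fun d _ => h1 c d,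
    sum_congr rfl fun c _ => sum_comm, sum_comm]
  refine sum_congr rfl fun e _ => ?_
  rw [mul_sum]
  refine sum_congr rfl fun c _ => ?_
  rw [mul_sum]

theorem HHv (hF : F.Base) (a b : Ix n) (f : F.B) :
    F.H a (F.H b f) - F.H b (F.H a f) = -(hf F * vo F (F.R a b) f) := by
  rw [hF.HH, hf_smul']
  rfl

variable (Y' : Ix n → Ix n → Ix n → F.B)

/-- the expansion of `D H_a H_b f` -/
theorem L1 (hF : F.Base) (hY : ∀ a c d, Y' a c d = - Y' a d c)
    (hDH : ∀ a f, F.D (F.H a f) = F.H a (F.D f)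
      + ∑ b, F.S a b * F.H b f + (1 / 2 : ℝ) • ∑ c, ∑ d, Y' a c d * F.V c d f)
    (a b : Ix n) (f : F.B) :
    F.D (F.H a (F.H b f)) = F.H a (F.H b (F.D f)) + ∑ c, F.H a (F.S b c) * F.H c f
      + ∑ c, F.S b c * F.H a (F.H c f) + ∑ c, F.S a c * F.H c (F.H b f)
      + hf F * vo F (fun c d => F.H a (Y' b c d)) f
      + hf F * ∑ c, ∑ d, Y' b c d * F.H a (F.V c d f)
      + hf F * ∑ c, ∑ d, Y' a c d * F.H b (F.V c d f)
      + ∑ c, Y' a c b * F.H c f := by
  have h1 := hDH a (F.H b f)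
  have h2 := congrArg (F.H a) (hDH b f)
  rw [map_add, map_add, hf_smul, hf_D] at h2
  have h3 : F.H a (∑ c, F.S b c * F.H c f) = ∑ c, F.H a (F.S b c) * F.H c f
      + ∑ c, F.S b c * F.H a (F.H c f) := by
    rw [map_sum, ← sum_add_distrib]
    exact sum_congr rfl fun c _ => lz F _ _ _
  have h4 : F.H a (∑ c, ∑ d, Y' b c d * F.V c d f) = vo F (fun c d => F.H a (Y' b c d)) f +
      ∑ c, ∑ d, Y' b c d * F.H a (F.V c d f) := by
    unfold vo
    rw [map_sum, ← sum_add_distrib]
    refine sum_congr rfl fun c _ => ?_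
    rw [map_sum, ← sum_add_distrib]
    exact sum_congr rfl fun d _ => lz F _ _ _
  have h5 : hf F * ∑ c, ∑ d, Y' a c d * F.V c d (F.H b f) =
      hf F * (∑ c, ∑ d, Y' a c d * F.H b (F.V c d f)) + ∑ c, Y' a c b * F.H c f := by
    have h6 : ∀ c d, Y' a c d * F.V c d (F.H b f) = Y' a c d * F.H b (F.V c d f) +
        Y' a c d * (F.dl d b * F.H c f - F.dl c b * F.H d f) := by
      intro c d
      have h := hF.VH c d b f
      linear_combination Y' a c d * h
    have h7 := AlgAux.contr F (Y' a) (hY a) (fun c => F.H c f) b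
    have h8 : ∑ c, ∑ d, Y' a c d * F.V c d (F.H b f) =
        (∑ c, ∑ d, Y' a c d * F.H b (F.V c d f)) +
          ∑ c, ∑ d, Y' a c d * (F.dl d b * F.H c f - F.dl c b * F.H d f) := by
      rw [← sum_add_distrib]
      refine sum_congr rfl fun c _ => ?_
      rw [← sum_add_distrib]
      exact sum_congr rfl fun d _ => h6 c d
    rw [h8, h7, mul_add, ← hf_smul F ((2 : ℝ) • _), AlgAux.half_two]
  rw [hf_smul, h5, h2, h3, h4] at h1
  rw [h1]
  ring

/-- contraction with the radial vector -/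
theorem Ynu (hF : F.Base) (hY : ∀ a c d, Y' a c d = - Y' a d c)
    (hDH : ∀ a f, F.D (F.H a f) = F.H a (F.D f)
      + ∑ b, F.S a b * F.H b f + (1 / 2 : ℝ) • ∑ c, ∑ d, Y' a c d * F.V c d f)
    (a b : Ix n) : ∑ c, Y' a c b * F.nu c = 0 := by
  have h := hDH a (F.nu b)
  have h1 : ∑ c, F.S a c * F.H c (F.nu b) = 0 :=
    sum_eq_zero fun c _ => by rw [hF.Hnu, mul_zero]
  have h2 : ∀ c d, Y' a c d * F.V c d (F.nu b) =
      Y' a c d * (F.dl d b * F.nu c - F.dl c b * F.nu d) := by
    intro c d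
    rw [hF.Vnu]
  rw [hF.Hnu, hF.Dnu, map_zero, map_zero, h1,
    sum_congr rfl fun c _ => sum_congr rfl fun d _ => h2 c d,
    AlgAux.contr F (Y' a) (hY a) F.nu b, AlgAux.half_two, zero_add, zero_add] at h
  exact h.symm

/-- the main identity -/
theorem key (hF : F.Base) (hY : ∀ a c d, Y' a c d = - Y' a d c)
    (hDH : ∀ a f, F.D (F.H a f) = F.H a (F.D f)
      + ∑ b, F.S a b * F.H b f + (1 / 2 : ℝ) • ∑ c, ∑ d, Y' a c d * F.V c d f)
    (a b : Ix n) (f : F.B) :
    ∑ c, (F.H a (F.S b c) - F.H b (F.S a c) + Y' a c b - Y' b c a) * F.H c f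
      + ∑ c, ∑ d, (hf F * (F.D (F.R a b c d) + F.H a (Y' b c d) - F.H b (Y' a c d)
        - ∑ e, F.S b e * F.R a e c d - ∑ e, F.S a e * F.R e b c d)) * F.V c d f = 0 := by
  have e1 := L1 F Y' hF hY hDH a b f
  have e2 := L1 F Y' hF hY hDH b a f
  have e3 := HHv F hF a b (F.D f)
  have e4 := congrArg F.D (HHv F hF a b f)
  have e5 : F.D (vo F (F.R a b) f) = vo F (fun c d => F.D (F.R a b c d)) f
      + vo F (F.R a b) (F.D f) := by
    unfold vo
    rw [map_sum, ← sum_add_distrib]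
    refine sum_congr rfl fun c _ => ?_
    rw [map_sum, ← sum_add_distrib]
    refine sum_congr rfl fun d _ => ?_
    rw [lz, hF.DV]
  rw [map_sub, map_neg, hf_D, e5] at e4
  have e6 : ∑ c, F.S b c * F.H a (F.H c f) - ∑ c, F.S b c * F.H c (F.H a f) =
      -(hf F * ∑ e, F.S b e * vo F (F.R a e) f) := by
    rw [← sum_sub_distrib, mul_sum, ← sum_neg_distrib]
    refine sum_congr rfl fun c _ => ?_
    have h := HHv F hF a c f
    linear_combination F.S b c * h
  have e7 : ∑ c, F.S a c * F.H c (F.H b f) - ∑ c, F.S a c * F.H b (F.H c f) =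
      -(hf F * ∑ e, F.S a e * vo F (F.R e b) f) := by
    rw [← sum_sub_distrib, mul_sum, ← sum_neg_distrib]
    refine sum_congr rfl fun c _ => ?_
    have h := HHv F hF c b f
    linear_combination F.S a c * h
  have e8 : ∑ c, (F.H a (F.S b c) - F.H b (F.S a c) + Y' a c b - Y' b c a) * F.H c f =
      ∑ c, F.H a (F.S b c) * F.H c f - ∑ c, F.H b (F.S a c) * F.H c f
        + ∑ c, Y' a c b * F.H c f - ∑ c, Y' b c a * F.H c f := by
    rw [← sum_sub_distrib, ← sum_add_distrib, ← sum_sub_distrib]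
    exact sum_congr rfl fun c _ => by ring
  have e9 : ∑ c, ∑ d, (hf F * (F.D (F.R a b c d) + F.H a (Y' b c d) - F.H b (Y' a c d)
        - ∑ e, F.S b e * F.R a e c d - ∑ e, F.S a e * F.R e b c d)) * F.V c d f =
      hf F * (vo F (fun c d => F.D (F.R a b c d)) f + vo F (fun c d => F.H a (Y' b c d)) f
        - vo F (fun c d => F.H b (Y' a c d)) f - ∑ e, F.S b e * vo F (F.R a e) f
        - ∑ e, F.S a e * vo F (F.R e b) f) := by
    rw [← vo_sum F (fun e => F.R a e) (F.S b) f, ← vo_sum F (fun e => F.R e b) (F.S a) f,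
      ← vo_add, ← vo_sub, ← vo_sub, ← vo_sub, ← vo_mul]
    rfl
  rw [e8, e9]
  linear_combination e2 - e1 + e4 - e3 - e6 - e7

end Alg2

open Alg2 in
theorem goal_ALG2 (_hALG0 : Goal_ALG0) (_hALG1 : Goal_ALG1) : Goal_ALG2 := by
  intro n T F hF hnuR hVR hbia1 hpair hbia2
  obtain ⟨Y', hY, hDH⟩ := hF.DH
  have hYnu := Ynu F Y' hF hY hDH
  have hanti : ∀ a b c d, hf F * (F.D (F.R a b c d) + F.H a (Y' b c d) - F.H b (Y' a c d)
        - ∑ e, F.S b e * F.R a e c d - ∑ e, F.S a e * F.R e b c d) =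
      - (hf F * (F.D (F.R a b d c) + F.H a (Y' b d c) - F.H b (Y' a d c)
        - ∑ e, F.S b e * F.R a e d c - ∑ e, F.S a e * F.R e b d c)) := by
    intro a b c d
    have h1 : ∑ e, F.S b e * F.R a e c d = - ∑ e, F.S b e * F.R a e d c := by
      rw [← sum_neg_distrib]
      refine sum_congr rfl fun e _ => ?_
      rw [hF.R34 a e c d]
      ring
    have h2 : ∑ e, F.S a e * F.R e b c d = - ∑ e, F.S a e * F.R e b d c := by
      rw [← sum_neg_distrib]
      refine sum_congr rfl fun e _ => ?_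
      rw [hF.R34 e b c d]
      ring
    rw [h1, h2, hF.R34 a b c d, hY b c d, hY a c d, map_neg, map_neg, map_neg]
    ring
  have hind := fun a b => hF.ind
    (fun c => F.H a (F.S b c) - F.H b (F.S a c) + Y' a c b - Y' b c a)
    (fun c d => hf F * (F.D (F.R a b c d) + F.H a (Y' b c d) - F.H b (Y' a c d)
        - ∑ e, F.S b e * F.R a e c d - ∑ e, F.S a e * F.R e b c d))
    (hanti a b) (key F Y' hF hY hDH a b)
  -- the coefficients of `H_c` vanish
  have hX : ∀ a b c, F.H a (F.S b c) - F.H b (F.S a c) + Y' a c b - Y' b c a = 0 := by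
    intro a b c
    have h := (hind a b).1 c
    have hS : ∀ a b, ∑ c, F.nu c * F.H a (F.S b c) = 0 := by
      intro a b
      have h1 := congrArg (F.H a) (hF.nuS b)
      rw [map_sum, map_zero] at h1
      rw [← h1]
      refine sum_congr rfl fun c _ => ?_
      rw [lz, hF.Hnu]
      ring
    have hY0 : ∀ a b, ∑ c, F.nu c * Y' a c b = 0 := by
      intro a b
      rw [← hYnu a b]
      exact sum_congr rfl fun c _ => mul_comm _ _
    have h2 : ∑ j, F.nu j * (F.H a (F.S b j) - F.H b (F.S a j) + Y' a j b - Y' b j a) = 0 := by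
      have h3 : ∀ j, F.nu j * (F.H a (F.S b j) - F.H b (F.S a j) + Y' a j b - Y' b j a) =
          F.nu j * F.H a (F.S b j) - F.nu j * F.H b (F.S a j) + F.nu j * Y' a j b
            - F.nu j * Y' b j a := fun j => by ring
      rw [sum_congr rfl fun j _ => h3 j, sum_sub_distrib, sum_add_distrib, sum_sub_distrib,
        hS, hS, hY0, hY0]
      ring
    rw [h2, mul_zero] at h
    exact h
  -- `Y' = Y`
  have hZ1 : ∀ a b c, Y' a c b - F.Y a c b = Y' b c a - F.Y b c a := by
    intro a b c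
    have h := hX a b c
    unfold FB.Y
    rw [hF.Ssymm b a]
    linear_combination h
  have hZ2 : ∀ a c d, Y' a c d - F.Y a c d = -(Y' a d c - F.Y a d c) := by
    intro a c d
    unfold FB.Y
    rw [hY a c d]
    ring
  have hZ : ∀ a c d, Y' a c d = F.Y a c d := by
    intro a c b
    have h1 := hZ1 a b c
    have h2 := hZ2 b c a
    have h3 := hZ1 b c a
    have h4 := hZ2 c a b
    have h5 := hZ1 c a b
    have h6 := hZ2 a b c
    have h7 : Y' a c b - F.Y a c b = -(Y' a c b - F.Y a c b) := by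
      calc Y' a c b - F.Y a c b = Y' b c a - F.Y b c a := h1
        _ = -(Y' b a c - F.Y b a c) := h2
        _ = -(Y' c a b - F.Y c a b) := by rw [h3]
        _ = -(-(Y' c b a - F.Y c b a)) := by rw [h4]
        _ = -(-(Y' a b c - F.Y a b c)) := by rw [h5]
        _ = -(Y' a c b - F.Y a c b) := by rw [h6]; ring
    have h8 := hf_add F
    linear_combination (Y' a c b - F.Y a c b) * (-h8) + hf F * h7
  refine ⟨hF, hnuR, hVR, hbia1, hpair, hbia2, ?_, ?_⟩
  · intro a f
    rw [hDH a f]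
    congr 2
    exact sum_congr rfl fun c _ => sum_congr rfl fun d _ => by rw [hZ]
  · intro a b c d
    have h := (hind a b).2 c d
    rw [hZ, hZ] at h
    have h8 := hf_add F
    have h9 : F.D (F.R a b c d) + F.H a (F.Y b c d) - F.H b (F.Y a c d)
        - ∑ e, F.S b e * F.R a e c d - ∑ e, F.S a e * F.R e b c d = 0 := by
      linear_combination (F.D (F.R a b c d) + F.H a (F.Y b c d) - F.H b (F.Y a c d)
        - ∑ e, F.S b e * F.R a e c d - ∑ e, F.S a e * F.R e b c d) * (-h8) + 2 * h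
    linear_combination h9

end Pool.Agent.Helper47.RFn
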