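import Pool.Agent.Helper47.RFn.GoalsC

/-!
MP_c98eff_gt, project RFn, packet E0: the fields `e_i = n_j L_ji` of the basic algebra.
-/

set_option autoImplicit false

open Finset

namespace Pool.Agent.Helper47.RFn

namespace E0aux

variable {n : ℕ} {T : ℝ} (P : BA n T)

theorem e_apply (i : Ix n) (f : P.B) : P.e i f = ∑ j, P.n0 j * P.L j i f := by
  unfold BA.e
  have h : ∀ s : Finset (Ix n), (∑ j ∈ s, P.n0 j • P.L j i) f = ∑ j ∈ s, P.n0 j * P.L j i f := by
    intro s
    induction s using Finset.induction_on with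
    | empty => simp
    | insert a s ha ih =>
      rw [Finset.sum_insert ha, Finset.sum_insert ha, Derivation.add_apply, ih]
      simp
  exact h univ

theorem sum_dl (i : Ix n) (x : Ix n → P.B) : ∑ j, P.dl i j * x j = x i := by
  unfold BA.dl
  simp

theorem sum_dl' (i : Ix n) (x : Ix n → P.B) : ∑ j, P.dl j i * x j = x i := by
  unfold BA.dl
  simp

variable {P}

theorem eq_zero_of_eq_neg {x : P.B} (h : x = -x) : x = 0 := by
  have h1 : (2 : ℝ) • x = 0 := by
    rw [two_smul]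
    nth_rewrite 1 [h]
    exact neg_add_cancel _
  have h2 : x = (1 / 2 : ℝ) • ((2 : ℝ) • x) := by rw [smul_smul]; norm_num
  rw [h2, h1, smul_zero]

theorem nnL (hP : P.Ax) (f : P.B) : ∑ j, ∑ l, P.n0 j * P.n0 l * P.L j l f = 0 := by
  refine eq_zero_of_eq_neg ?_
  conv_lhs => rw [Finset.sum_comm]
  rw [← Finset.sum_neg_distrib]
  refine Finset.sum_congr rfl fun j _ => ?_
  rw [← Finset.sum_neg_distrib]
  refine Finset.sum_congr rfl fun l _ => ?_
  rw [hP.Lanti l j]
  ring

theorem en (hP : P.Ax) (i k : Ix n) : P.e i (P.n0 k) = P.dl i k - P.n0 i * P.n0 k := by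
  rw [e_apply]
  have h1 : ∀ j, P.n0 j * P.L j i (P.n0 k) = P.dl i k * P.n0 j ^ 2 -
      P.dl j k * (P.n0 j * P.n0 i) := by
    intro j
    rw [hP.Ln]
    ring
  rw [Finset.sum_congr rfl fun j _ => h1 j, Finset.sum_sub_distrib, ← Finset.mul_sum, hP.nn,
    sum_dl']
  ring

theorem ne (hP : P.Ax) (f : P.B) : ∑ i, P.n0 i * P.e i f = 0 := by
  have h1 : ∀ i, P.n0 i * P.e i f = ∑ j, P.n0 j * P.n0 i * P.L j i f := by
    intro i
    rw [e_apply, Finset.mul_sum]
    exact Finset.sum_congr rfl fun j _ => by ring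
  rw [Finset.sum_congr rfl fun i _ => h1 i, Finset.sum_comm]
  exact nnL hP f

theorem ee (hP : P.Ax) (i k : Ix n) (f : P.B) :
    P.e i (P.e k f) - P.e k (P.e i f) = P.n0 i * P.e k f - P.n0 k * P.e i f := by
  have h1 : ∀ i k, P.e i (P.e k f) = ∑ l, P.e i (P.n0 l) * P.L l k f +
      ∑ j, ∑ l, P.n0 j * P.n0 l * P.L j i (P.L l k f) := by
    intro i k
    rw [e_apply P k f, map_sum]
    have h2 : ∀ l, P.e i (P.n0 l * P.L l k f) = P.e i (P.n0 l) * P.L l k f +
        ∑ j, P.n0 j * P.n0 l * P.L j i (P.L l k f) := by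
      intro l
      rw [Derivation.leibniz, smul_eq_mul, smul_eq_mul, e_apply P i (P.L l k f), Finset.mul_sum,
        add_comm]
      refine congrArg₂ (· + ·) (mul_comm _ _) (Finset.sum_congr rfl fun j _ => by ring)
    rw [Finset.sum_congr rfl fun l _ => h2 l, Finset.sum_add_distrib]
    congr 1
    rw [Finset.sum_comm]
  have h3 : ∀ i k, ∑ l, P.e i (P.n0 l) * P.L l k f = P.L i k f - P.n0 i * P.e k f := by
    intro i k
    have h4 : ∀ l, P.e i (P.n0 l) * P.L l k f = P.dl i l * P.L l k f -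
        P.n0 i * (P.n0 l * P.L l k f) := by
      intro l
      rw [en hP]
      ring
    rw [Finset.sum_congr rfl fun l _ => h4 l, Finset.sum_sub_distrib, sum_dl P i (fun l => P.L l k f),
      ← Finset.mul_sum, ← e_apply]
  have h5 : ∑ j, ∑ l, P.n0 j * P.n0 l * P.L j i (P.L l k f) -
      ∑ j, ∑ l, P.n0 j * P.n0 l * P.L j k (P.L l i f) =
      P.n0 i * P.e k f - P.L i k f - P.n0 k * P.e i f := by
    have h6 : ∑ j, ∑ l, P.n0 j * P.n0 l * P.L j k (P.L l i f) =
        ∑ j, ∑ l, P.n0 j * P.n0 l * P.L l k (P.L j i f) := by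
      rw [Finset.sum_comm]
      exact Finset.sum_congr rfl fun j _ => Finset.sum_congr rfl fun l _ => by ring
    rw [h6, ← Finset.sum_sub_distrib]
    have h7 : ∀ j, ∑ l, P.n0 j * P.n0 l * P.L j i (P.L l k f) -
        ∑ l, P.n0 j * P.n0 l * P.L l k (P.L j i f) =
        P.n0 i * (P.n0 j * P.L j k f) - P.n0 j ^ 2 * P.L i k f -
          P.dl i k * ∑ l, P.n0 j * P.n0 l * P.L j l f +
          P.dl j k * (P.n0 j * ∑ l, P.n0 l * P.L i l f) := by
      intro j
      rw [← Finset.sum_sub_distrib]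
      have h8 : ∀ l, P.n0 j * P.n0 l * P.L j i (P.L l k f) -
          P.n0 j * P.n0 l * P.L l k (P.L j i f) =
          P.dl i l * (P.n0 j * P.n0 l * P.L j k f) - P.dl j l * (P.n0 j * P.n0 l * P.L i k f) -
          P.dl i k * (P.n0 j * P.n0 l * P.L j l f) +
          P.dl j k * (P.n0 j * (P.n0 l * P.L i l f)) := by
        intro l
        rw [← mul_sub, hP.LL]
        ring
      rw [Finset.sum_congr rfl fun l _ => h8 l, Finset.sum_add_distrib, Finset.sum_sub_distrib,
        Finset.sum_sub_distrib, sum_dl P i (fun l => P.n0 j * P.n0 l * P.L j k f),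
        sum_dl P j (fun l => P.n0 j * P.n0 l * P.L i k f), ← Finset.mul_sum, ← Finset.mul_sum,
        ← Finset.mul_sum]
      ring
    rw [Finset.sum_congr rfl fun j _ => h7 j, Finset.sum_add_distrib, Finset.sum_sub_distrib,
      Finset.sum_sub_distrib, ← Finset.mul_sum, ← Finset.mul_sum, ← Finset.sum_mul, hP.nn,
      nnL hP, ← e_apply, sum_dl' P k (fun j => P.n0 j * ∑ l, P.n0 l * P.L i l f)]
    have h9 : ∑ l, P.n0 l * P.L i l f = -P.e i f := by
      rw [e_apply, ← Finset.sum_neg_distrib]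
      exact Finset.sum_congr rfl fun l _ => by rw [hP.Lanti i l]; ring
    rw [h9]
    ring
  have h10 := hP.Le i k f
  have h11 := hP.Lanti k i f
  rw [h1 i k, h1 k i, h3 i k, h3 k i]
  linear_combination h5 + h10 - h11

theorem comm_of {P : BA n T} (D : Derivation ℝ P.B P.B) (hn : ∀ k, D (P.n0 k) = 0)
    (hL : ∀ i j f, P.L i j (D f) = D (P.L i j f)) (i : Ix n) (f : P.B) :
    P.e i (D f) = D (P.e i f) := by
  rw [e_apply, e_apply, map_sum]
  refine Finset.sum_congr rfl fun j _ => ?_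
  rw [Derivation.leibniz, hn, smul_zero, add_zero, smul_eq_mul, hL]

end E0aux

/-- packet E0 -/
theorem goal_E0 : Goal_E0 := by
  intro n T P hP
  refine ⟨E0aux.ee hP, E0aux.en hP, E0aux.ne hP,
    fun i k l f => E0aux.comm_of (P.U k l) (hP.Un k l) (fun i j f => hP.LU i j k l f) i f,
    fun i k l f => E0aux.comm_of (P.V k l) (hP.Vn k l) (fun i j f => hP.LV i j k l f) i f,
    fun i f => (E0aux.comm_of P.Dt hP.Dn (fun i j f => (hP.DL i j f).symm) i f).symm,
    ?_, ?_, ?_⟩
  · intro i a b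
    rw [E0aux.e_apply]
    refine Finset.sum_eq_zero fun j _ => ?_
    rw [hP.Lu, mul_zero]
  · intro i
    rw [E0aux.e_apply]
    refine Finset.sum_eq_zero fun j _ => ?_
    rw [hP.tt_L, mul_zero]
  · intro A θ S0 hF
    exact ⟨E0aux.ee hP, E0aux.en hP, hP.nn, E0aux.ne hP, hF.At, hF.tA, hF.nA⟩

end Pool.Agent.Helper47.RFn
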