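import Pool.Agent.Helper47.RFn.GoalsC

/-!
MP_c98eff_gt, project RFn, packet FRA: first identities of the moving frame (all dimensions).
-/

set_option autoImplicit false
set_option linter.unusedSectionVars false

open Finset

namespace Pool.Agent.Helper47.RFn

namespace FRAaux

section

variable {n : ℕ} {𝒜 : Type} [CommRing 𝒜] [Algebra ℝ 𝒜] (e : Ix n → Derivation ℝ 𝒜 𝒜) (n0 : Ix n → 𝒜)
  (A θ : Ix n → Ix n → 𝒜)

theorem Fd_neg (a : Ix n) (f : 𝒜) : FR.Fd e A a (-f) = -FR.Fd e A a f := by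
  simp only [FR.Fd, map_neg, mul_neg, Finset.sum_neg_distrib]

theorem Fd_mul (a : Ix n) (f g : 𝒜) :
    FR.Fd e A a (f * g) = FR.Fd e A a f * g + f * FR.Fd e A a g := by
  simp only [FR.Fd, Derivation.leibniz, smul_eq_mul, Finset.sum_mul, Finset.mul_sum]
  rw [← Finset.sum_add_distrib]
  refine Finset.sum_congr rfl fun i _ => ?_
  ring

theorem Fd_sum {ι : Type} (s : Finset ι) (a : Ix n) (f : ι → 𝒜) :
    FR.Fd e A a (∑ i ∈ s, f i) = ∑ i ∈ s, FR.Fd e A a (f i) := by
  simp only [FR.Fd, map_sum, Finset.mul_sum]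
  rw [Finset.sum_comm]

variable {e n0 A θ}

theorem half_two (x : 𝒜) : (1 / 2 : ℝ) • (x + x) = x := by
  rw [← two_smul ℝ x, smul_smul]; norm_num

theorem eq_zero_of_add_self {x : 𝒜} (h : x + x = 0) : x = 0 := by
  rw [← half_two x, h, smul_zero]

theorem sum_delta (b : Ix n) (x : Ix n → 𝒜) :
    ∑ c, (if b = c then (1 : 𝒜) else 0) * x c = x b := by
  simp

/-- contraction `θ_ia (A_aj x_j) = x_i` -/
theorem contract_tA (hF : FrameHyp e n0 A θ) (x : Ix n → 𝒜) (i : Ix n) :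
    ∑ a, θ i a * ∑ j, A a j * x j = x i := by
  simp only [Finset.mul_sum]
  rw [Finset.sum_comm]
  have h1 : ∀ j, ∑ a, θ i a * (A a j * x j) = (if i = j then 1 else 0) * x j := by
    intro j
    rw [← hF.tA i j, Finset.sum_mul]
    exact Finset.sum_congr rfl fun a _ => by ring
  rw [Finset.sum_congr rfl fun j _ => h1 j]
  exact sum_delta i x

/-- contraction `(x_i θ_ia) A_aj = x_j` -/
theorem contract_tA' (hF : FrameHyp e n0 A θ) (x : Ix n → 𝒜) (j : Ix n) :
    ∑ a, (∑ i, θ i a * x i) * A a j = x j := by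
  simp only [Finset.sum_mul]
  rw [Finset.sum_comm]
  have h1 : ∀ i, ∑ a, θ i a * x i * A a j = (if j = i then 1 else 0) * x i := by
    intro i
    have h2 : (if j = i then (1 : 𝒜) else 0) = if i = j then 1 else 0 := by
      simp only [eq_comm]
    rw [h2, ← hF.tA i j, Finset.sum_mul]
    exact Finset.sum_congr rfl fun a _ => by ring
  rw [Finset.sum_congr rfl fun i _ => h1 i]
  exact sum_delta j x

theorem e_eq (hF : FrameHyp e n0 A θ) (i : Ix n) (f : 𝒜) :
    e i f = ∑ a, θ i a * FR.Fd e A a f :=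
  (contract_tA hF (fun j => e j f) i).symm

theorem nf_eq (hF : FrameHyp e n0 A θ) (a : Ix n) : FR.nf n0 A a = ∑ i, θ i a * n0 i := hF.nA a

theorem C_anti (a b c : Ix n) : FR.C e n0 A θ a b c = -FR.C e n0 A θ b a c := by
  simp only [FR.C]
  rw [neg_add, ← Finset.sum_neg_distrib]
  refine congrArg₂ (· + ·) (Finset.sum_congr rfl fun j _ => by ring) (by ring)

theorem FF (hF : FrameHyp e n0 A θ) (a b : Ix n) (f : 𝒜) :
    FR.Fd e A a (FR.Fd e A b f) - FR.Fd e A b (FR.Fd e A a f)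
      = ∑ c, FR.C e n0 A θ a b c * FR.Fd e A c f := by
  have e1 : ∀ a b, FR.Fd e A a (FR.Fd e A b f)
      = ∑ j, FR.Fd e A a (A b j) * e j f + ∑ i, ∑ j, A a i * A b j * e i (e j f) := by
    intro a b
    simp only [FR.Fd, map_sum, Derivation.leibniz, smul_eq_mul, Finset.sum_mul, Finset.mul_sum]
    rw [Finset.sum_comm (s := univ) (t := univ) (f := fun j i => A a i * (e i) (A b j) * (e j) f),
      ← Finset.sum_add_distrib]
    refine Finset.sum_congr rfl fun i _ => ?_
    rw [← Finset.sum_add_distrib]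
    refine Finset.sum_congr rfl fun j _ => ?_
    ring
  have e2 : ∑ i, ∑ j, A a i * A b j * e i (e j f) - ∑ i, ∑ j, A b i * A a j * e i (e j f)
      = FR.nf n0 A a * FR.Fd e A b f - FR.nf n0 A b * FR.Fd e A a f := by
    have e3 : ∑ i, ∑ j, A b i * A a j * e i (e j f) = ∑ i, ∑ j, A a i * A b j * e j (e i f) := by
      rw [Finset.sum_comm]
      exact Finset.sum_congr rfl fun i _ => Finset.sum_congr rfl fun j _ => by ring
    have e4 : FR.nf n0 A b * FR.Fd e A a f = ∑ i, ∑ j, A a i * e i f * (A b j * n0 j) := by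
      rw [mul_comm, FR.nf, FR.Fd, Finset.sum_mul_sum]
    rw [e3, e4, FR.nf, FR.Fd, Finset.sum_mul_sum, ← Finset.sum_sub_distrib,
      ← Finset.sum_sub_distrib]
    refine Finset.sum_congr rfl fun i _ => ?_
    rw [← Finset.sum_sub_distrib, ← Finset.sum_sub_distrib]
    refine Finset.sum_congr rfl fun j _ => ?_
    rw [← mul_sub, hF.ee]
    ring
  have e5 : ∑ c, FR.C e n0 A θ a b c * FR.Fd e A c f =
      ∑ j, (FR.Fd e A a (A b j) - FR.Fd e A b (A a j)) * e j f +
        (FR.nf n0 A a * FR.Fd e A b f - FR.nf n0 A b * FR.Fd e A a f) := by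
    simp only [FR.C, add_mul, Finset.sum_add_distrib]
    refine congrArg₂ (· + ·) ?_ ?_
    · simp only [Finset.sum_mul]
      rw [Finset.sum_comm]
      refine Finset.sum_congr rfl fun j _ => ?_
      rw [e_eq hF j f, Finset.mul_sum]
      exact Finset.sum_congr rfl fun c _ => by ring
    · simp only [sub_mul, Finset.sum_sub_distrib]
      refine congrArg₂ (· - ·) ?_ ?_
      · rw [← sum_delta b (fun c => FR.Fd e A c f), Finset.mul_sum]
        exact Finset.sum_congr rfl fun c _ => by ring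
      · rw [← sum_delta a (fun c => FR.Fd e A c f), Finset.mul_sum]
        exact Finset.sum_congr rfl fun c _ => by ring
  rw [e1 a b, e1 b a, e5, ← e2]
  simp only [sub_mul, Finset.sum_sub_distrib]
  ring

theorem Gam_anti (a b c : Ix n) : FR.Gam e n0 A θ a b c = -FR.Gam e n0 A θ a c b := by
  simp only [FR.Gam]
  rw [C_anti c b a, C_anti a c b, C_anti b a c]
  module

theorem C_Gam (a b c : Ix n) :
    FR.C e n0 A θ a b c = FR.Gam e n0 A θ a b c - FR.Gam e n0 A θ b a c := by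
  simp only [FR.Gam]
  rw [C_anti b a c, C_anti c b a, C_anti a c b]
  module

theorem Gam_add (a b c : Ix n) : FR.Gam e n0 A θ a b c + FR.Gam e n0 A θ b a c =
    FR.C e n0 A θ c a b + FR.C e n0 A θ c b a := by
  simp only [FR.Gam]
  rw [C_anti b a c, C_anti b c a, C_anti a c b]
  module

theorem nf_sq (hF : FrameHyp e n0 A θ) : ∑ a, FR.nf n0 A a ^ 2 = 1 := by
  have h1 : ∀ a, FR.nf n0 A a ^ 2 = ∑ j, (∑ i, θ i a * n0 i) * A a j * n0 j := by
    intro a
    rw [pow_two]
    nth_rewrite 1 [nf_eq hF a]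
    rw [FR.nf, Finset.mul_sum]
    exact Finset.sum_congr rfl fun j _ => by ring
  rw [Finset.sum_congr rfl fun a _ => h1 a, Finset.sum_comm]
  have h2 : ∀ j, ∑ a, (∑ i, θ i a * n0 i) * A a j * n0 j = n0 j ^ 2 := by
    intro j
    rw [← Finset.sum_mul, contract_tA' hF n0 j, pow_two]
  rw [Finset.sum_congr rfl fun j _ => h2 j, hF.nn]

theorem nf_A (hF : FrameHyp e n0 A θ) (j : Ix n) : ∑ c, FR.nf n0 A c * A c j = n0 j := by
  have h1 : ∀ c, FR.nf n0 A c * A c j = (∑ i, θ i c * n0 i) * A c j := by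
    intro c
    rw [nf_eq hF c]
  rw [Finset.sum_congr rfl fun c _ => h1 c, contract_tA' hF n0 j]

theorem th_nf (hF : FrameHyp e n0 A θ) (j : Ix n) : ∑ c, θ j c * FR.nf n0 A c = n0 j :=
  contract_tA hF n0 j

theorem nf_Fd (hF : FrameHyp e n0 A θ) (f : 𝒜) : ∑ a, FR.nf n0 A a * FR.Fd e A a f = 0 := by
  have h1 : ∀ a, FR.nf n0 A a * FR.Fd e A a f = ∑ j, FR.nf n0 A a * A a j * e j f := by
    intro a
    rw [FR.Fd, Finset.mul_sum]
    exact Finset.sum_congr rfl fun j _ => by ring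
  rw [Finset.sum_congr rfl fun a _ => h1 a, Finset.sum_comm]
  have h2 : ∀ j, ∑ a, FR.nf n0 A a * A a j * e j f = n0 j * e j f := by
    intro j
    rw [← Finset.sum_mul, nf_A hF j]
  rw [Finset.sum_congr rfl fun j _ => h2 j, hF.ne]

/-- `F_a n_j = A_aj - ν_a n_j` -/
theorem Fd_n0 (hF : FrameHyp e n0 A θ) (a j : Ix n) :
    FR.Fd e A a (n0 j) = A a j - FR.nf n0 A a * n0 j := by
  have h1 : ∀ i, A a i * e i (n0 j) = (if j = i then 1 else 0) * A a i - A a i * n0 i * n0 j := by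
    intro i
    have h2 : (if j = i then (1 : 𝒜) else 0) = if i = j then 1 else 0 := by
      simp only [eq_comm]
    rw [h2, hF.en]
    ring
  rw [FR.Fd, Finset.sum_congr rfl fun i _ => h1 i, Finset.sum_sub_distrib, sum_delta j (A a),
    ← Finset.sum_mul, FR.nf]

theorem skew (hF : FrameHyp e n0 A θ) (a b : Ix n) :
    FR.Fd e A a (FR.nf n0 A b) - FR.Fd e A b (FR.nf n0 A a) =
      ∑ c, FR.C e n0 A θ a b c * FR.nf n0 A c := by
  have h1 : ∀ a b, FR.Fd e A a (FR.nf n0 A b) = ∑ i, FR.Fd e A a (A b i) * n0 i +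
      (∑ i, A a i * A b i - FR.nf n0 A a * FR.nf n0 A b) := by
    intro a b
    have h2 : FR.nf n0 A a * FR.nf n0 A b = ∑ i, A b i * (FR.nf n0 A a * n0 i) := by
      conv_lhs => rw [FR.nf.eq_def n0 A b]
      rw [Finset.mul_sum]
      exact Finset.sum_congr rfl fun i _ => by ring
    rw [h2, ← Finset.sum_sub_distrib, ← Finset.sum_add_distrib]
    conv_lhs => rw [FR.nf.eq_def n0 A b]
    rw [Fd_sum]
    refine Finset.sum_congr rfl fun i _ => ?_
    rw [Fd_mul, Fd_n0 hF]
    ring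
  have h3 : ∑ c, FR.C e n0 A θ a b c * FR.nf n0 A c =
      ∑ i, (FR.Fd e A a (A b i) - FR.Fd e A b (A a i)) * n0 i := by
    simp only [FR.C, add_mul, Finset.sum_add_distrib]
    have h4 : ∑ c, (FR.nf n0 A a * (if b = c then 1 else 0) - FR.nf n0 A b * (if a = c then 1 else 0))
        * FR.nf n0 A c = 0 := by
      have h5 : ∀ c, (FR.nf n0 A a * (if b = c then 1 else 0) -
          FR.nf n0 A b * (if a = c then 1 else 0)) * FR.nf n0 A c =
          FR.nf n0 A a * ((if b = c then 1 else 0) * FR.nf n0 A c) -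
            FR.nf n0 A b * ((if a = c then 1 else 0) * FR.nf n0 A c) := by
        intro c
        ring
      rw [Finset.sum_congr rfl fun c _ => h5 c, Finset.sum_sub_distrib, ← Finset.mul_sum,
        ← Finset.mul_sum, sum_delta, sum_delta]
      ring
    rw [h4, add_zero]
    simp only [Finset.sum_mul]
    rw [Finset.sum_comm]
    refine Finset.sum_congr rfl fun j _ => ?_
    conv_rhs => rw [← th_nf hF j, Finset.mul_sum]
    exact Finset.sum_congr rfl fun c _ => by ring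
  have h6 : ∑ i, A a i * A b i = ∑ i, A b i * A a i :=
    Finset.sum_congr rfl fun i _ => mul_comm _ _
  rw [h1 a b, h1 b a, h3, h6]
  simp only [sub_mul, Finset.sum_sub_distrib]
  ring

theorem nf_C (hF : FrameHyp e n0 A θ) (a b : Ix n) :
    ∑ c, FR.C e n0 A θ c a b * FR.nf n0 A c = FR.Fd e A a (FR.nf n0 A b) := by
  have h1 : ∀ c, FR.C e n0 A θ c a b * FR.nf n0 A c =
      ∑ j, FR.nf n0 A c * FR.Fd e A c (A a j) * θ j b -
      ∑ j, FR.nf n0 A c * FR.Fd e A a (A c j) * θ j b +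
      (FR.nf n0 A c ^ 2 * (if a = b then 1 else 0) -
        (if b = c then 1 else 0) * (FR.nf n0 A c * FR.nf n0 A a)) := by
    intro c
    have h2 : (if b = c then (1 : 𝒜) else 0) = if c = b then 1 else 0 := by
      simp only [eq_comm]
    rw [FR.C, add_mul, Finset.sum_mul, h2, ← Finset.sum_sub_distrib]
    refine congrArg₂ (· + ·) (Finset.sum_congr rfl fun j _ => by ring) (by ring)
  rw [Finset.sum_congr rfl fun c _ => h1 c, Finset.sum_add_distrib, Finset.sum_sub_distrib,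
    Finset.sum_sub_distrib, ← Finset.sum_mul, nf_sq hF, one_mul, sum_delta]
  have h3 : ∑ c, ∑ j, FR.nf n0 A c * FR.Fd e A c (A a j) * θ j b = 0 := by
    rw [Finset.sum_comm]
    refine Finset.sum_eq_zero fun j _ => ?_
    rw [← Finset.sum_mul, nf_Fd hF, zero_mul]
  have h4 : ∑ c, ∑ j, FR.nf n0 A c * FR.Fd e A a (A c j) * θ j b =
      (if a = b then 1 else 0) - FR.nf n0 A a * FR.nf n0 A b - FR.Fd e A a (FR.nf n0 A b) := by
    rw [Finset.sum_comm]
    have h5 : ∀ j, ∑ c, FR.nf n0 A c * FR.Fd e A a (A c j) * θ j b =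
        A a j * θ j b - FR.nf n0 A a * (θ j b * n0 j) -
          ∑ c, FR.Fd e A a (FR.nf n0 A c) * (A c j * θ j b) := by
      intro j
      have h6 : FR.Fd e A a (n0 j) = ∑ c, FR.Fd e A a (FR.nf n0 A c) * A c j +
          ∑ c, FR.nf n0 A c * FR.Fd e A a (A c j) := by
        rw [← Finset.sum_add_distrib]
        conv_lhs => rw [← nf_A hF j]
        rw [Fd_sum]
        exact Finset.sum_congr rfl fun c _ => by rw [Fd_mul]
      rw [Fd_n0 hF] at h6
      have h7 : ∑ c, FR.nf n0 A c * FR.Fd e A a (A c j) =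
          A a j - FR.nf n0 A a * n0 j - ∑ c, FR.Fd e A a (FR.nf n0 A c) * A c j := by
        rw [h6]; ring
      rw [← Finset.sum_mul, h7, sub_mul, Finset.sum_mul]
      have h8 : ∑ c, FR.Fd e A a (FR.nf n0 A c) * A c j * θ j b =
          ∑ c, FR.Fd e A a (FR.nf n0 A c) * (A c j * θ j b) :=
        Finset.sum_congr rfl fun c _ => by ring
      rw [h8]
      ring
    rw [Finset.sum_congr rfl fun j _ => h5 j, Finset.sum_sub_distrib, Finset.sum_sub_distrib,
      hF.At, ← Finset.mul_sum, ← nf_eq hF b]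
    congr 1
    rw [Finset.sum_comm]
    have h9 : ∀ c, ∑ j, FR.Fd e A a (FR.nf n0 A c) * (A c j * θ j b) =
        (if b = c then 1 else 0) * FR.Fd e A a (FR.nf n0 A c) := by
      intro c
      have h2 : (if b = c then (1 : 𝒜) else 0) = if c = b then 1 else 0 := by
        simp only [eq_comm]
      rw [← Finset.mul_sum, hF.At, h2]
      ring
    rw [Finset.sum_congr rfl fun c _ => h9 c, sum_delta]
  rw [h3, h4]
  ring

theorem Fd_nf (hF : FrameHyp e n0 A θ) (a b : Ix n) :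
    FR.Fd e A a (FR.nf n0 A b) = ∑ c, FR.Gam e n0 A θ a b c * FR.nf n0 A c := by
  have h1 := skew hF a b
  have h2 : ∑ c, FR.C e n0 A θ a b c * FR.nf n0 A c =
      ∑ c, FR.Gam e n0 A θ a b c * FR.nf n0 A c - ∑ c, FR.Gam e n0 A θ b a c * FR.nf n0 A c := by
    rw [← Finset.sum_sub_distrib]
    exact Finset.sum_congr rfl fun c _ => by rw [C_Gam]; ring
  have h3 : ∑ c, FR.Gam e n0 A θ a b c * FR.nf n0 A c + ∑ c, FR.Gam e n0 A θ b a c * FR.nf n0 A c =
      FR.Fd e A a (FR.nf n0 A b) + FR.Fd e A b (FR.nf n0 A a) := by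
    rw [← nf_C hF a b, ← nf_C hF b a, ← Finset.sum_add_distrib, ← Finset.sum_add_distrib]
    refine Finset.sum_congr rfl fun c _ => ?_
    rw [← add_mul, Gam_add, add_mul]
  rw [h2] at h1
  have h4 : (FR.Fd e A a (FR.nf n0 A b) - ∑ c, FR.Gam e n0 A θ a b c * FR.nf n0 A c) +
      (FR.Fd e A a (FR.nf n0 A b) - ∑ c, FR.Gam e n0 A θ a b c * FR.nf n0 A c) = 0 := by
    linear_combination h1 - h3
  exact sub_eq_zero.1 (eq_zero_of_add_self h4)

theorem R_anti12 (a b c d : Ix n) : FR.R e n0 A θ a b c d = -FR.R e n0 A θ b a c d := by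
  simp only [FR.R, FR.K]
  have h1 : ∑ f, (FR.Gam e n0 A θ b c f * FR.Gam e n0 A θ a f d -
      FR.Gam e n0 A θ a c f * FR.Gam e n0 A θ b f d) =
      -∑ f, (FR.Gam e n0 A θ a c f * FR.Gam e n0 A θ b f d -
        FR.Gam e n0 A θ b c f * FR.Gam e n0 A θ a f d) := by
    rw [← Finset.sum_neg_distrib]
    exact Finset.sum_congr rfl fun f _ => by ring
  have h2 : ∑ f, FR.C e n0 A θ a b f * FR.Gam e n0 A θ f c d =
      -∑ f, FR.C e n0 A θ b a f * FR.Gam e n0 A θ f c d := by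
    rw [← Finset.sum_neg_distrib]
    exact Finset.sum_congr rfl fun f _ => by rw [C_anti a b f]; ring
  rw [h1, h2]
  ring

theorem R_anti34 (a b c d : Ix n) : FR.R e n0 A θ a b c d = -FR.R e n0 A θ a b d c := by
  simp only [FR.R, FR.K]
  have h1 : ∑ f, (FR.Gam e n0 A θ b c f * FR.Gam e n0 A θ a f d -
      FR.Gam e n0 A θ a c f * FR.Gam e n0 A θ b f d) =
      -∑ f, (FR.Gam e n0 A θ b d f * FR.Gam e n0 A θ a f c -
        FR.Gam e n0 A θ a d f * FR.Gam e n0 A θ b f c) := by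
    rw [← Finset.sum_neg_distrib]
    refine Finset.sum_congr rfl fun f _ => ?_
    rw [Gam_anti b c f, Gam_anti a f d, Gam_anti a c f, Gam_anti b f d]
    ring
  have h2 : ∑ f, FR.C e n0 A θ a b f * FR.Gam e n0 A θ f c d =
      -∑ f, FR.C e n0 A θ a b f * FR.Gam e n0 A θ f d c := by
    rw [← Finset.sum_neg_distrib]
    exact Finset.sum_congr rfl fun f _ => by rw [Gam_anti f c d]; ring
  rw [h1, h2, Gam_anti b c d, Gam_anti a c d, Fd_neg, Fd_neg]
  ring

end

end FRAaux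

/-- packet FRA -/
theorem goal_FRA : Goal_FRA := by
  intro n 𝒜 _ _ e n0 A θ hF
  exact ⟨FRAaux.FF hF, FRAaux.C_anti, FRAaux.Gam_anti, FRAaux.C_Gam, FRAaux.e_eq hF,
    FRAaux.nf_sq hF, FRAaux.nf_Fd hF, FRAaux.Fd_nf hF, FRAaux.R_anti12, FRAaux.R_anti34⟩

end Pool.Agent.Helper47.RFn
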