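import Pool.Agent.Helper47.RFn.GoalsA

/-!
# Packet RFn-RIC: contractions of the curvature tensor
-/

namespace Pool.Agent.Helper47.RFn

open Finset

namespace RicAux

variable {n : ℕ} {T : ℝ} (F : FB n T)

theorem ric_symm (hF : F.Full) (a b : Ix n) : F.Ric a b = F.Ric b a := by
  unfold FB.Ric
  exact sum_congr rfl fun e _ => hF.pair a e b e

theorem ric_nu (hF : F.Full) (a : Ix n) : ∑ b, F.Ric a b * F.nu b = 0 := by
  unfold FB.Ric
  rw [sum_congr rfl fun b _ => sum_mul univ (fun e => F.R a e b e) (F.nu b), sum_comm]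
  refine sum_eq_zero fun e _ => ?_
  have h := hF.nuR a e e
  have h2 : ∑ b, F.R a e b e * F.nu b = - ∑ b, F.R a e e b * F.nu b := by
    rw [← sum_neg_distrib]
    refine sum_congr rfl fun b _ => ?_
    rw [hF.R34 a e b e]
    ring
  rw [h2, h, neg_zero]

theorem h_ric (e a b : Ix n) : F.H e (F.Ric a b) = ∑ d, F.H e (F.R a d b d) := by
  unfold FB.Ric
  rw [map_sum]

theorem div_R (hF : F.Full) (b c d : Ix n) :
    ∑ e, F.H e (F.R b e c d) = F.H d (F.Ric b c) - F.H c (F.Ric b d) := by
  rw [h_ric, h_ric, ← sum_sub_distrib]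
  refine sum_congr rfl fun e _ => ?_
  have h := hF.bia2 e c d b e
  rw [hF.pair b e c d]
  have e1 : F.R d e b e = F.R b e d e := hF.pair d e b e
  have e2 : F.R e c b e = - F.R b e c e := by
    rw [hF.R12 e c b e, hF.pair c e b e]
  rw [e1, e2, map_neg] at h
  linear_combination h

theorem div_ric (hF : F.Full) (c : Ix n) :
    (2 : ℝ) • ∑ b, F.H b (F.Ric b c) = F.H c (∑ a, F.Ric a a) := by
  have h1 : ∑ b, ∑ e, F.H e (F.R b e c b) = ∑ b, (F.H b (F.Ric b c) - F.H c (F.Ric b b)) :=
    sum_congr rfl fun b _ => div_R F hF b c b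
  have h2 : ∑ b, ∑ e, F.H e (F.R b e c b) = - ∑ e, F.H e (F.Ric e c) := by
    rw [sum_comm, ← sum_neg_distrib]
    refine sum_congr rfl fun e _ => ?_
    rw [h_ric, ← sum_neg_distrib]
    refine sum_congr rfl fun b _ => ?_
    rw [hF.R12 b e c b, map_neg]
  rw [h2, sum_sub_distrib] at h1
  rw [map_sum, two_smul]
  linear_combination -h1

theorem V_ric (hF : F.Full) (k l a b : Ix n) :
    F.V k l (F.Ric a b) = F.dl l a * F.Ric k b - F.dl k a * F.Ric l b
      + F.dl l b * F.Ric a k - F.dl k b * F.Ric a l := by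
  have h1 : F.V k l (F.Ric a b) = ∑ e, F.V k l (F.R a e b e) := by
    unfold FB.Ric
    rw [map_sum]
  have h2 : ∀ e, F.V k l (F.R a e b e) =
      (F.dl l a * F.R k e b e - F.dl k a * F.R l e b e + F.dl l b * F.R a e k e
        - F.dl k b * F.R a e l e) + (F.dl l e * F.R a k b e - F.dl k e * F.R a l b e
        + F.dl l e * F.R a e b k - F.dl k e * F.R a e b l) := by
    intro e
    rw [hF.VR]
    ring
  rw [h1, sum_congr rfl fun e _ => h2 e, sum_add_distrib]
  have h3 : ∑ e, (F.dl l e * F.R a k b e - F.dl k e * F.R a l b e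
        + F.dl l e * F.R a e b k - F.dl k e * F.R a e b l) = 0 := by
    rw [sum_sub_distrib, sum_add_distrib, sum_sub_distrib]
    simp only [FB.dl, ite_mul, one_mul, zero_mul, sum_ite_eq, mem_univ, if_true]
    ring
  rw [h3, add_zero, sum_sub_distrib, sum_add_distrib, sum_sub_distrib]
  unfold FB.Ric
  rw [mul_sum, mul_sum, mul_sum, mul_sum]

theorem hor (hF : F.Full) (z : F.Z) (t : TI T) : Hor (F.nv z t) (F.rv z t) := by
  refine ⟨⟨?_, ?_, ?_, ?_⟩, ?_⟩
  · intro a b c d
    have h := congrArg (F.ev z t) (hF.R12 a b c d)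
    rw [map_neg] at h
    exact h
  · intro a b c d
    have h := congrArg (F.ev z t) (hF.R34 a b c d)
    rw [map_neg] at h
    exact h
  · intro a b c d
    exact congrArg (F.ev z t) (hF.pair a b c d)
  · intro a b c d
    have h := congrArg (F.ev z t) (hF.bia1 a b c d)
    rw [map_add, map_add, map_zero] at h
    exact h
  · intro a b c
    have h := congrArg (F.ev z t) (hF.nuR a b c)
    rw [map_sum, map_zero] at h
    rw [← h]
    refine sum_congr rfl fun d _ => ?_
    rw [map_mul]
    rfl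

theorem ev_QR (a b c d : Ix n) (z : F.Z) (t : TI T) :
    F.ev z t (F.QR a b c d) = Q (F.rv z t) a b c d := by
  unfold FB.QR Q BB
  rw [map_sum, ← sum_sub_distrib, ← sum_add_distrib, ← sum_sub_distrib]
  refine sum_congr rfl fun e _ => ?_
  rw [map_sum, ← sum_sub_distrib, ← sum_add_distrib, ← sum_sub_distrib]
  refine sum_congr rfl fun f _ => ?_
  simp only [map_sub, map_add, map_mul]
  rfl

end RicAux

open RicAux in
theorem goal_RIC' : Goal_RIC := by
  intro n T F hF
  exact ⟨ric_symm F hF, ric_nu F hF, div_R F hF, div_ric F hF, V_ric F hF, hor F hF,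
    fun a b c d z t => ev_QR F a b c d z t⟩

theorem goal_RIC (_hQB : Goal_QB) : Goal_RIC := goal_RIC'

end Pool.Agent.Helper47.RFn
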